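import Pool.Agent.HS38.GT.Defs

/-!
# Boolean versions of the theorems on equivariant circuits: pieces

Project EB (helper1). Monomials with multiplicities: a monomial supported on the variables `restr K x`, `K ∈ H`, of an
assignment `x` is given by the exponents `P K ≤ D`. A file `Pool/Agent/Helper1x/EB/<Name>.lean` proves
`theorem Pool.Agent.Helper1x.EB.t_<NAME> : S_<NAME>`. The cases `D = 1` are in `Helper1x/EG/Wgt.lean`, `Geng.lean`.
-/

set_option autoImplicit false

namespace Pool.Agent.Helper1x.EB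

open Finset Pool.Agent.HS38.GT

/-- The numbers `t K i α` define a gauge symmetry and there are no further multiplicative relations with exponents of
absolute value at most `2 D`. -/
def Generic {F V A : Type} [Field F] [Fintype V] [DecidableEq V] [Fintype A] (D : ℕ) (H : Finset (Finset V))
    (t : Finset V → V → A → Fˣ) : Prop :=
  IsGauge H t ∧ ∀ e : Finset V → V → A → ℤ, (∀ K i α, |e K i α| ≤ 2 * D) →
    ∏ K ∈ H, ∏ i ∈ K, ∏ α, t K i α ^ e K i α = 1 →
    ∀ i α, ∀ K ∈ H, i ∈ K → ∀ K' ∈ H, i ∈ K' → e K i α = e K' i α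

/-- the weight of the monomial with the exponents `P K` of the variables `restr K x` -/
def wp {F V A : Type} [Field F] (H : Finset (Finset V)) (t : Finset V → V → A → Fˣ) (x : V → A) (P : Finset V → ℕ) :
    Fˣ := ∏ K ∈ H, (∏ i ∈ K, t K i (x i)) ^ P K

/-- GENB. Generic gauge symmetries exist for every `D` (as `t_GENG`, with `4 * D` for `4`). -/
def S_GENB : Prop := ∀ (F : Type) [Field F] [Infinite F] (V A : Type) [Fintype V] [DecidableEq V] [Fintype A]
  [DecidableEq A] (D : ℕ) (H : Finset (Finset V)), ∃ t : Finset V → V → A → Fˣ, Generic D H t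

/-- WEB. Equal weights: if `x i ≠ x' i` then `P` is constant on the scopes which contain `i`. (The exponents
`e K i α = [x i = α] P K - [x' i = α] P' K` for `K ∈ H`, `0` otherwise, are independent of `K ∋ i`; take `α = x i`.) -/
def S_WEB : Prop := ∀ (F : Type) [Field F] (V A : Type) [Fintype V] [DecidableEq V] [Fintype A] [DecidableEq A]
  (D : ℕ) (H : Finset (Finset V)) (t : Finset V → V → A → Fˣ), Generic D H t → ∀ (x x' : V → A) (P P' : Finset V → ℕ),
  (∀ K ∈ H, P K ≤ D) → (∀ K ∈ H, P' K ≤ D) → wp H t x P = wp H t x' P' →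
  ∀ i, x i ≠ x' i → ∀ K ∈ H, i ∈ K → ∀ K' ∈ H, i ∈ K' → P K = P K'

/-- WHB. Relative weights: fix `y`, `x₁`, `P₁`, `R₁`. There is one assignment `z` such that `x i = z i` for all `x`, `P`,
`R` with `wp x P * wp y R₁ = wp x₁ P₁ * wp y R` and all `i` such that `P` is not constant on the scopes which contain
`i`. Proof. `z i = x₁ i` if `P₁` is not constant on the scopes containing `i`, and `z i = y i` otherwise. For `α ≠ y i` the
number `[x i = α] P K - [x₁ i = α] P₁ K` is independent of `K ∋ i`. If `x i ≠ y i` take `α = x i`: as `P` is not constant,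
`x₁ i = α` and `P₁` is not constant. If `x i = y i ≠ x₁ i` take `α = x₁ i`: `P₁` is constant. -/
def S_WHB : Prop := ∀ (F : Type) [Field F] (V A : Type) [Fintype V] [DecidableEq V] [Fintype A] [DecidableEq A]
  (D : ℕ) (H : Finset (Finset V)) (t : Finset V → V → A → Fˣ), Generic D H t → ∀ (y x₁ : V → A)
  (P₁ R₁ : Finset V → ℕ), (∀ K ∈ H, P₁ K ≤ D) → (∀ K ∈ H, R₁ K ≤ D) → ∃ z : V → A, ∀ (x : V → A)
  (P R : Finset V → ℕ), (∀ K ∈ H, P K ≤ D) → (∀ K ∈ H, R K ≤ D) →
    wp H t x P * wp H t y R₁ = wp H t x₁ P₁ * wp H t y R →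
    ∀ i, (∃ K ∈ H, i ∈ K ∧ ∃ K' ∈ H, i ∈ K' ∧ P K ≠ P K') → x i = z i

/-- MOB. A polynomial whose values at zero-one points decide whether the point contains one of the sets `S x` has, for
every `x`, a monomial with support exactly `S x` (the sets form an antichain). Proof. Let `g T` be the sum of the
coefficients of the monomials with support `T`. The value at the indicator of `Y` is `∑_{T ⊆ Y} g T`. It is zero for the
proper subsets `Y` of `S x` (`S x' ⊆ Y` would give `S x' = S x`), so `g Y = 0` for them by induction, and it is not zero for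
`Y = S x`, so `g (S x) ≠ 0`. -/
def S_MOB : Prop := ∀ (F : Type) [Field F] (X Ω : Type) [Fintype X] [DecidableEq X] (S : Ω → Finset X),
  (∀ x x', S x' ⊆ S x → S x' = S x) → ∀ f : MvPolynomial X F,
  (∀ Y : Finset X, MvPolynomial.eval (fun β => if β ∈ Y then (1 : F) else 0) f ≠ 0 ↔ ∃ x, S x ⊆ Y) →
  ∀ x, ∃ u ∈ f.support, u.support = S x

end Pool.Agent.Helper1x.EB
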