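import Pool.Agent.Helper1x.EB.Desc
import Pool.Agent.Helper1x.EB.Def
import Pool.Agent.Helper1x.EG.Low

/-!
# Small sets of assignments and the lower bound, monomials with multiplicities
-/

set_option autoImplicit false

namespace Pool.Agent.Helper1x.EB

open Finset Pool.Agent.HS38 Pool.Agent.HS38.GT
open Pool.Agent.Helper1x.EC (Circuit Earlier ju ju_injective)
open Pool.Agent.Helper1x.EG (small_agree small_ball gu gu_restr scope_restr restr_injective t_COMB t_COMB2
  le_choose sum_sq2 card_scopes)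
open Pool.Agent.Helper1x.EP (mwt)

section

variable {F V A : Type} [Field F] [Fintype V] [DecidableEq V] [Fintype A] [DecidableEq A]

theorem Generic.map {L : Type} [Field L] {D : ℕ} {H : Finset (Finset V)} {t : Finset V → V → A → Fˣ}
    (h : Generic D H t) (φ : Fˣ →* Lˣ) (hφ : Function.Injective φ) : Generic D H fun K i α => φ (t K i α) := by
  refine ⟨fun i α => ?_, fun e he h1 => h.2 e he (hφ ?_)⟩
  · rw [← map_prod, h.1 i α, map_one]
  · rw [map_one, ← h1]
    simp only [map_prod, map_zpow]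

/-- the exponents of a monomial at the variables of an assignment -/
def ex (x : V → A) (u : (V → Option A) →₀ ℕ) (K : Finset V) : ℕ := u (restr K x)

/-- the monomials of an assignment -/
def Good (D : ℕ) (H : Finset (Finset V)) (x : V → A) (u : (V → Option A) →₀ ℕ) : Prop :=
  (∀ β, u β ≠ 0 → ∃ K ∈ H, restr K x = β) ∧ ∀ β, u β ≤ D

/-- the scopes which occur in a monomial of an assignment -/
def sc (H : Finset (Finset V)) (x : V → A) (u : (V → Option A) →₀ ℕ) : Finset (Finset V) :=
  H.filter fun K => ex x u K ≠ 0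

omit [Fintype A] [DecidableEq A] in
theorem Good.mono {D : ℕ} {H : Finset (Finset V)} {x : V → A} {u v : (V → Option A) →₀ ℕ} (h : u ≤ v)
    (hv : Good D H x v) : Good D H x u := by
  refine ⟨fun β hβ => hv.1 β ?_, fun β => (h β).trans (hv.2 β)⟩
  have := h β
  omega

omit [Fintype A] [DecidableEq A] in
theorem sz_eq {D : ℕ} {H : Finset (Finset V)} {x : V → A} {u : (V → Option A) →₀ ℕ} (hu : Good D H x u) :
    sz u = (sc H x u).card := by
  classical
  have h1 : u.support = (sc H x u).image fun K => restr K x := by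
    ext β
    rw [Finsupp.mem_support_iff, mem_image]
    constructor
    · intro hβ
      obtain ⟨K, hK, rfl⟩ := hu.1 β hβ
      exact ⟨K, mem_filter.2 ⟨hK, hβ⟩, rfl⟩
    · rintro ⟨K, hK, rfl⟩
      exact (mem_filter.1 hK).2
  unfold sz
  rw [h1, Finset.card_image_of_injective _ (restr_injective x)]

omit [Fintype A] [DecidableEq A] in
theorem sc_subset {H : Finset (Finset V)} {x : V → A} {u : (V → Option A) →₀ ℕ} : sc H x u ⊆ H :=
  Finset.filter_subset _ _

omit [Fintype A] [DecidableEq A] in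
theorem wL_wp {L : Type} [Field L] [Algebra F L] {D : ℕ} {H : Finset (Finset V)} (t : Finset V → V → A → Fˣ)
    {x : V → A} {u : (V → Option A) →₀ ℕ} (hu : Good D H x u) :
    wL L (gu t) u = wp H (fun K i α => ju F L (t K i α)) x (ex x u) := by
  classical
  rw [wL_eq]
  unfold mwt wp
  have h1 : u.support ⊆ H.image fun K => restr K x := by
    intro β hβ
    obtain ⟨K, hK, rfl⟩ := hu.1 β (Finsupp.mem_support_iff.1 hβ)
    exact mem_image_of_mem _ hK
  rw [Finsupp.prod_of_support_subset u h1 _ fun β _ => pow_zero _,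
    Finset.prod_image fun K _ K' _ h => restr_injective x h]
  refine Finset.prod_congr rfl fun K _ => ?_
  rw [gu_restr, map_prod]
  rfl

omit [Fintype A] [DecidableEq A] in
theorem cut_ne {H : Finset (Finset V)} {x : V → A} {u : (V → Option A) →₀ ℕ} {i : V} (hi : i ∈ GT.cut H (sc H x u)) :
    ∃ K ∈ H, i ∈ K ∧ ∃ K' ∈ H, i ∈ K' ∧ ex x u K ≠ ex x u K' := by
  obtain ⟨_, ⟨K, hK, hiK⟩, K', hK', hiK'⟩ := mem_filter.1 hi
  obtain ⟨hK1, hK2⟩ := mem_filter.1 hK
  obtain ⟨hK'1, hK'2⟩ := mem_sdiff.1 hK'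
  refine ⟨K, hK1, hiK, K', hK'1, hiK', ?_⟩
  have h1 : ex x u K' = 0 := by
    by_contra h
    exact hK'2 (mem_filter.2 ⟨hK'1, h⟩)
  rw [h1]
  exact hK2

variable {D k : ℕ} {t : Finset V → V → A → Fˣ}

/-- the assignments with a cut of a given weight -/
theorem small_cut (hWEB : S_WEB) (hA : 2 ≤ Fintype.card A) (hk : 2 ≤ k) (hkn : k ≤ Fintype.card V)
    (ht : Generic D (scopes V k) t) {a : ℕ} (ha : 1 ≤ a) (ha2 : 2 * a ≤ (scopes V k).card)
    (ha3 : (scopes V k).card ≤ 100 * a) (h : Fˣ) {X : Finset (V → A)}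
    (hX : ∀ x ∈ X, ∃ u, Good D (scopes V k) x u ∧ a ≤ sz u ∧ sz u ≤ (scopes V k).card - a ∧
      wp (scopes V k) t x (ex x u) = h) : EG.Small X := by
  rcases X.eq_empty_or_nonempty with h0 | ⟨x1, hx1⟩
  · unfold EG.Small
    rw [h0, Finset.card_empty, zero_pow (by norm_num), zero_mul]
    exact Nat.zero_le _
  · obtain ⟨u1, h1, h2, h3, h4⟩ := hX x1 hx1
    rw [sz_eq h1] at h2 h3
    refine small_agree hA (z := x1) (C := GT.cut (scopes V k) (sc (scopes V k) x1 u1)) ?_ ?_
    · have h5 := t_COMB V k hk hkn (sc (scopes V k) x1 u1) a sc_subset h2 (by omega)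
      have h6 : 0 < (scopes V k).card := by omega
      have h7 : (scopes V k).card * Fintype.card V ^ 2 ≤
          (scopes V k).card * (10 * (GT.cut (scopes V k) (sc (scopes V k) x1 u1)).card) ^ 2 := by
        calc (scopes V k).card * Fintype.card V ^ 2 ≤ 100 * a * Fintype.card V ^ 2 := Nat.mul_le_mul_right _ ha3
          _ = 100 * (a * Fintype.card V ^ 2) := by ring
          _ ≤ 100 * ((scopes V k).card * (GT.cut (scopes V k) (sc (scopes V k) x1 u1)).card ^ 2) :=
            Nat.mul_le_mul_left _ h5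
          _ = _ := by ring
      exact (Nat.pow_le_pow_iff_left two_ne_zero).1 (Nat.le_of_mul_le_mul_left h7 h6)
    · intro x hx i hi
      obtain ⟨u, h5, h6, h7, h8⟩ := hX x hx
      by_contra hne
      obtain ⟨K, hK, hiK, K', hK', hiK', hKK⟩ := cut_ne hi
      exact hKK (hWEB F V A D (scopes V k) t ht x1 x (ex x1 u1) (ex x u) (fun K _ => h1.2 _) (fun K _ => h5.2 _)
        (h4.trans h8.symm) i (Ne.symm hne) K hK hiK K' hK' hiK')

/-- the assignments with a relative cut -/
theorem small_rel (hWHB : S_WHB) (hA : 2 ≤ Fintype.card A) (hk : 2 ≤ k) (hkn : k ≤ Fintype.card V)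
    (ht : Generic D (scopes V k) t) {w0 : ℕ} (hw : 49 * (scopes V k).card ≤ 100 * w0) (hN : 0 < (scopes V k).card)
    (y : V → A) (b b' : Fˣ) {X : Finset (V → A)}
    (hX : ∀ x ∈ X, ∃ u u', Good D (scopes V k) x u ∧ Good D (scopes V k) y u' ∧ w0 ≤ sz u ∧
      w0 + sz u ≤ (scopes V k).card ∧
      b * wp (scopes V k) t y (ex y u') = b' * wp (scopes V k) t x (ex x u)) : EG.Small X := by
  rcases X.eq_empty_or_nonempty with h0 | ⟨x1, hx1⟩
  · unfold EG.Small
    rw [h0, Finset.card_empty, zero_pow (by norm_num), zero_mul]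
    exact Nat.zero_le _
  · obtain ⟨u1, u1', h1, h2, h3, h4, h5⟩ := hX x1 hx1
    obtain ⟨z, hz⟩ := hWHB F V A D (scopes V k) t ht y x1 (ex x1 u1) (ex y u1') (fun K _ => h1.2 _) fun K _ => h2.2 _
    refine small_ball hA (z := z) fun x hx => ?_
    obtain ⟨u, u', h6, h7, h8, h9, h10⟩ := hX x hx
    have h11 := hz x (ex x u) (ex y u') (fun K _ => h6.2 _) (fun K _ => h7.2 _) (by
      have h12 : b' * b * (wp (scopes V k) t x (ex x u) * wp (scopes V k) t y (ex y u1')) =
          b' * b * (wp (scopes V k) t x1 (ex x1 u1) * wp (scopes V k) t y (ex y u')) := by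
        calc b' * b * (wp (scopes V k) t x (ex x u) * wp (scopes V k) t y (ex y u1'))
            = (b' * wp (scopes V k) t x (ex x u)) * (b * wp (scopes V k) t y (ex y u1')) := by
              rw [mul_mul_mul_comm]
          _ = (b * wp (scopes V k) t y (ex y u')) * (b' * wp (scopes V k) t x1 (ex x1 u1)) := by rw [h10, h5]
          _ = (b' * wp (scopes V k) t x1 (ex x1 u1)) * (b * wp (scopes V k) t y (ex y u')) := mul_comm _ _
          _ = b' * b * (wp (scopes V k) t x1 (ex x1 u1) * wp (scopes V k) t y (ex y u')) := by rw [mul_mul_mul_comm]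
      exact mul_left_cancel h12)
    rw [sz_eq h6] at h8 h9
    have h12 := t_COMB V k hk hkn (sc (scopes V k) x u) w0 sc_subset h8 h9
    have h13 : (scopes V k).card * (7 * Fintype.card V) ^ 2 ≤
        (scopes V k).card * (10 * (GT.cut (scopes V k) (sc (scopes V k) x u)).card) ^ 2 := by
      calc (scopes V k).card * (7 * Fintype.card V) ^ 2 = 49 * (scopes V k).card * Fintype.card V ^ 2 := by ring
        _ ≤ 100 * w0 * Fintype.card V ^ 2 := Nat.mul_le_mul_right _ hw
        _ = 100 * (w0 * Fintype.card V ^ 2) := by ring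
        _ ≤ 100 * ((scopes V k).card * (GT.cut (scopes V k) (sc (scopes V k) x u)).card ^ 2) :=
          Nat.mul_le_mul_left _ h12
        _ = _ := by ring
    have h14 := (Nat.pow_le_pow_iff_left two_ne_zero).1 (Nat.le_of_mul_le_mul_left h13 hN)
    have h15 : (univ.filter fun i => x i ≠ z i).card ≤ (GT.cut (scopes V k) (sc (scopes V k) x u))ᶜ.card := by
      refine Finset.card_le_card fun i hi => ?_
      rw [Finset.mem_compl]
      intro h16
      exact (mem_filter.1 hi).2 (h11 i (cut_ne h16))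
    rw [Finset.card_compl] at h15
    omega

/-- the assignments with walks at a gate -/
theorem walks_small (hWEB : S_WEB) (hWHB : S_WHB) (hA : 2 ≤ Fintype.card A) (hk : 2 ≤ k) (hkn : k ≤ Fintype.card V)
    (ht : Generic D (scopes V k) t) {a w0 : ℕ} (hw : 49 * (scopes V k).card ≤ 100 * w0)
    (hw0 : 0 < w0) (hw1 : 100 * w0 ≤ 51 * (scopes V k).card) (hw2 : 2 * w0 + a ≤ (scopes V k).card + 1)
    (ha : 2 * a ≤ (scopes V k).card)
    {W : ((V → Option A) →₀ ℕ) → Fˣ} (hW : Mult W)
    (hwt : ∀ x u, Good D (scopes V k) x u → W u = wp (scopes V k) t x (ex x u)) {ι : Type} [Fintype ι] [DecidableEq ι]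
    {b μ : ι → Fˣ} {Z : Finset ι} {M : ℕ} (hM : ∀ X : Finset (V → A), EG.Small X → X.card ≤ M) {X : Finset (V → A)}
    (hX : ∀ x ∈ X, ∃ u r E, Good D (scopes V k) x u ∧ (scopes V k).card - a < sz u ∧ Walks W a b μ Z u r E) :
    X.card ≤ (Fintype.card ι * Fintype.card ι + 1) * M := by
  classical
  rcases X.eq_empty_or_nonempty with h0 | ⟨y, hy⟩
  · rw [h0, Finset.card_empty]
    exact Nat.zero_le _
  obtain ⟨uy, ry, Ey, hy1, hy2, hy3⟩ := hX y hy
  set H := scopes V k with hH
  set N := H.card with hN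
  have hNpos : 0 < N := by omega
  set rel : ι × ι → Finset (V → A) := fun v => univ.filter fun x => ∃ u u', Good D H x u ∧ Good D H y u' ∧
    w0 ≤ sz u ∧ w0 + sz u ≤ N ∧ b v.1 * wp H t y (ex y u') = b v.2 * wp H t x (ex x u) with hrel
  have hcov : X ⊆ (univ.filter fun x : V → A => 10 * (univ.filter fun i => x i ≠ y i).card ≤ 3 * Fintype.card V) ∪
      univ.biUnion rel := by
    intro x hx
    rw [mem_union]
    by_cases hball : 10 * (univ.filter fun i => x i ≠ y i).card ≤ 3 * Fintype.card V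
    · exact Or.inl (mem_filter.2 ⟨mem_univ _, hball⟩)
    right
    set Δ : Finset V := univ.filter fun i => x i ≠ y i with hΔ
    have hΔn : Δ.card ≤ Fintype.card V := Finset.card_le_univ _
    obtain ⟨u, r, E, h1, h2, h3⟩ := hX x hx
    have hsq : (10 * (Fintype.card V - Δ.card)) ^ 2 ≤ (7 * Fintype.card V) ^ 2 := Nat.pow_le_pow_left (by omega) 2
    -- a scope in the monomial which meets `Δ`
    have hex : ∃ i0 ∈ Δ, ∃ K0 ∈ sc H x u, i0 ∈ K0 := by
      by_contra hcon
      push Not at hcon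
      have h4 := (t_COMB2 V k hk (sc H x u) Δ sc_subset).2 hcon
      have h5 : 100 * (sc H x u).card * Fintype.card V ^ 2 ≤ 49 * N * Fintype.card V ^ 2 := by
        calc 100 * (sc H x u).card * Fintype.card V ^ 2 = 100 * ((sc H x u).card * Fintype.card V ^ 2) := by ring
          _ ≤ 100 * (N * (Fintype.card V - Δ.card) ^ 2) := Nat.mul_le_mul_left _ h4
          _ = N * (10 * (Fintype.card V - Δ.card)) ^ 2 := by ring
          _ ≤ N * (7 * Fintype.card V) ^ 2 := Nat.mul_le_mul_left _ hsq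
          _ = _ := by ring
      have h6 : 0 < Fintype.card V ^ 2 := pow_pos (by omega) 2
      have h7 := Nat.le_of_mul_le_mul_right h5 h6
      rw [sz_eq h1] at h2
      omega
    obtain ⟨i0, hi0, K0, hK0, hi0K⟩ := hex
    obtain ⟨hK0H, hK0u⟩ := mem_filter.1 hK0
    have hz : ∃ z0 ∈ Z, E z0 (restr K0 x) ≠ 0 := by
      have h4 : (∑ z ∈ Z, E z) (restr K0 x) ≠ 0 := by
        rw [h3.2.2.2.2.2]
        exact hK0u
      rw [Finsupp.finsetSum_apply] at h4
      exact Finset.exists_ne_zero_of_sum_ne_zero h4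
    obtain ⟨z0, hz0, hEz0⟩ := hz
    obtain ⟨S, hSZ, hz0S, h8, h9⟩ := relative hW h3 hy3 hz0 (w0 := w0)
    have hgood : ∀ S' ⊆ Z, Good D H x (∑ z ∈ S', E z) := fun S' hS' =>
      h1.mono (h3.2.2.2.2.2 ▸ sum_le_of_subset hS' E)
    have hgood' : ∀ S' ⊆ Z, Good D H y (∑ z ∈ S', Ey z) := fun S' hS' =>
      hy1.mono (hy3.2.2.2.2.2 ▸ sum_le_of_subset hS' Ey)
    rw [hwt y _ (hgood' S hSZ), hwt x _ (hgood S hSZ)] at h8
    set u1 := ∑ z ∈ S, E z with hu1
    have hK0u1 : ex x u1 K0 ≠ 0 := by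
      unfold ex
      rw [hu1, Finsupp.finsetSum_apply]
      intro h4
      exact hEz0 ((Finset.sum_eq_zero_iff.1 h4) z0 hz0S)
    have hconst : ∀ i ∈ Δ, ∀ K ∈ H, i ∈ K → ∀ K' ∈ H, i ∈ K' → ex x u1 K = ex x u1 K' := by
      intro i hi
      exact hWEB F V A D H t ht x y (ex x u1) (ex y (∑ z ∈ S, Ey z)) (fun K _ => (hgood S hSZ).2 _)
        (fun K _ => (hgood' S hSZ).2 _) h8.symm i (mem_filter.1 hi).2
    have hfull : ∀ i ∈ Δ, ∀ K ∈ H, i ∈ K → K ∈ sc H x u1 := by
      intro i hi K hK hiK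
      obtain ⟨K1, hK1a, hK1b⟩ : ∃ K1 : Finset V, {i, i0} ⊆ K1 ∧ K1.card = k := by
        obtain ⟨K1, h11, _, h12⟩ := Finset.exists_subsuperset_card_eq (Finset.subset_univ ({i, i0} : Finset V))
          (n := k) ((Finset.card_le_two).trans hk) (by rw [Finset.card_univ]; exact hkn)
        exact ⟨K1, h11, h12⟩
      have hK1 : K1 ∈ H := Finset.mem_powersetCard.2 ⟨Finset.subset_univ _, hK1b⟩
      have h11 := hconst i0 hi0 K1 hK1 (hK1a (by simp)) K0 hK0H hi0K
      have h12 := hconst i hi K hK hiK K1 hK1 (hK1a (by simp))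
      refine mem_filter.2 ⟨hK, ?_⟩
      rw [h12, h11]
      exact hK0u1
    have h11 := (t_COMB2 V k hk (sc H x u1) Δ sc_subset).1 hfull
    have h12 : 100 * (N - (sc H x u1).card) * Fintype.card V ^ 2 ≤ 49 * N * Fintype.card V ^ 2 := by
      calc 100 * (N - (sc H x u1).card) * Fintype.card V ^ 2 =
            100 * ((N - (sc H x u1).card) * Fintype.card V ^ 2) := by ring
        _ ≤ 100 * (N * (Fintype.card V - Δ.card) ^ 2) := Nat.mul_le_mul_left _ h11
        _ = N * (10 * (Fintype.card V - Δ.card)) ^ 2 := by ring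
        _ ≤ N * (7 * Fintype.card V) ^ 2 := Nat.mul_le_mul_left _ hsq
        _ = _ := by ring
    have h13 : 0 < Fintype.card V ^ 2 := pow_pos (by omega) 2
    have h14 := Nat.le_of_mul_le_mul_right h12 h13
    have hg1 : Good D H x u1 := hgood S hSZ
    have h15 : w0 ≤ sz u1 := by
      rw [sz_eq hg1]
      omega
    obtain ⟨v, hv, v', hv', S', hS', h16, h17, h18⟩ := h9 hw0 h15
    rw [hwt y _ (hgood' S' hS'), hwt x _ (hgood S' hS')] at h18
    exact mem_biUnion.2 ⟨(v, v'), mem_univ _, mem_filter.2 ⟨mem_univ _, _, _, hgood S' hS', hgood' S' hS', h16,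
      by omega, h18⟩⟩
  refine (Finset.card_le_card hcov).trans ((Finset.card_union_le _ _).trans ?_)
  have h1 : (univ.filter fun x : V → A => 10 * (univ.filter fun i => x i ≠ y i).card ≤
      3 * Fintype.card V).card ≤ M := hM _ (small_ball hA (z := y) fun x hx => (mem_filter.1 hx).2)
  have h2 : (univ.biUnion rel).card ≤ Fintype.card ι * Fintype.card ι * M := by
    refine Finset.card_biUnion_le.trans ?_
    refine (Finset.sum_le_card_nsmul _ _ M fun v _ => hM _ (small_rel hWHB hA hk hkn ht hw hNpos y (b v.1) (b v.2)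
      fun x hx => (mem_filter.1 hx).2)).trans ?_
    rw [Finset.card_univ, Fintype.card_prod, smul_eq_mul]
  calc _ ≤ M + Fintype.card ι * Fintype.card ι * M := Nat.add_le_add h1 h2
    _ = _ := by ring

/-- A monomial of weight one is constant or has all scopes. -/
theorem unit_case (hWEB : S_WEB) (hA : 2 ≤ Fintype.card A) (hk : 2 ≤ k) (hkn : k ≤ Fintype.card V)
    (ht : Generic D (scopes V k) t) {x : V → A} {u : (V → Option A) →₀ ℕ} (hu : Good D (scopes V k) x u)
    (h : wp (scopes V k) t x (ex x u) = 1) : u = 0 ∨ (scopes V k).card ≤ sz u := by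
  classical
  by_cases hu0 : u = 0
  · exact Or.inl hu0
  right
  obtain ⟨β, hβ⟩ := Finsupp.ne_iff.1 hu0
  obtain ⟨K0, hK0, rfl⟩ := hu.1 β hβ
  haveI : Nontrivial A := Fintype.one_lt_card_iff_nontrivial.1 hA
  choose x' hx' using fun i => exists_ne (x i)
  have hconst : ∀ i, ∀ K ∈ scopes V k, i ∈ K → ∀ K' ∈ scopes V k, i ∈ K' → ex x u K = ex x u K' := fun i =>
    hWEB F V A D (scopes V k) t ht x x' (ex x u) (fun _ => 0) (fun K _ => hu.2 _) (fun K _ => Nat.zero_le _) (by
      rw [h]
      simp [wp]) i (Ne.symm (hx' i))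
  have hfull : ∀ K ∈ scopes V k, K ∈ sc (scopes V k) x u := by
    intro K hK
    have hKc := (Finset.mem_powersetCard.1 hK).2
    have hK0c := (Finset.mem_powersetCard.1 hK0).2
    obtain ⟨i, hi⟩ := Finset.card_pos.1 (by omega : 0 < K.card)
    obtain ⟨i0, hi0⟩ := Finset.card_pos.1 (by omega : 0 < K0.card)
    obtain ⟨K1, h11, _, h12⟩ := Finset.exists_subsuperset_card_eq (Finset.subset_univ ({i, i0} : Finset V))
      (n := k) ((Finset.card_le_two).trans hk) (by rw [Finset.card_univ]; exact hkn)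
    have hK1 : K1 ∈ scopes V k := Finset.mem_powersetCard.2 ⟨Finset.subset_univ _, h12⟩
    refine mem_filter.2 ⟨hK, ?_⟩
    rw [hconst i K hK hi K1 hK1 (h11 (by simp)), hconst i0 K1 hK1 (h11 (by simp)) K0 hK0 hi0]
    exact hβ
  rw [sz_eq hu]
  exact Finset.card_le_card hfull

open Classical in
/-- The lower bound. -/
theorem lower (hWEB : S_WEB) (hWHB : S_WHB) (hn : 200 ≤ Fintype.card V) (hA : 2 ≤ Fintype.card A) (hk : 2 ≤ k)
    (hkn : k < Fintype.card V) (ht : Generic D (scopes V k) t) {G : ℕ} {p : ℕ → MvPolynomial (V → Option A) F}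
    {m : ℕ → ℕ} (hc : Circuit (gauge t) G p m) {f : MvPolynomial (V → Option A) F} (hf : f ∈ Earlier p G) {R : ℕ}
    (hR : Fintype.card A ^ Fintype.card V ≤ R * (univ.filter fun x : V → A =>
      ∃ u, MvPolynomial.coeff u f ≠ 0 ∧ u.support = (scopes V k).image (fun K => restr K x) ∧ ∀ β, u β ≤ D).card) :
    2 ^ Fintype.card V ≤ (2 * R * (∑ j ∈ range G, (m j + 1)) ^ 2) ^ 10 := by
  set s : ℕ := ∑ j ∈ range G, (m j + 1) with hs
  set N := (scopes V k).card with hN
  have hNn : Fintype.card V ≤ N := by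
    rw [hN, card_scopes]
    exact le_choose (by omega) hkn
  set a : ℕ := (N + 99) / 100 with ha
  set w0 : ℕ := (49 * N + 99) / 100 with hw0
  set L := AlgebraicClosure F with hL
  set t' : Finset V → V → A → Lˣ := fun K i α => ju F L (t K i α) with ht'
  have hgen : Generic D (scopes V k) t' := ht.map _ ju_injective
  set W : ((V → Option A) →₀ ℕ) → Lˣ := wL L (gu t) with hW
  have hWm : Mult W := wL_mult
  have hwt : ∀ x u, Good D (scopes V k) x u → W u = wp (scopes V k) t' x (ex x u) := fun x u hu => wL_wp t hu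
  choose l b μ hstr using fun j => circuit_str (L := L) (c := gu t) hc j
  set Z : ∀ j, Finset (Fin (m j)) := fun j => univ.filter fun u => b j u ≠ μ j u with hZ
  have hdesc : ∀ x, ∀ j < G, ∀ u, Occ p j u → Good D (scopes V k) x u → N - a < sz u →
      (∃ u', Good D (scopes V k) x u' ∧ a ≤ sz u' ∧ sz u' ≤ N - a ∧ W u' ∈ labels G m l b μ) ∨
      ∃ j < G, ∃ u' r E, Good D (scopes V k) x u' ∧ N - a < sz u' ∧ Walks W a (b j) (μ j) (Z j) u' r E := by
    intro x
    exact descent (W := W) hWm (Good := Good D (scopes V k) x) (fun u v h hv => hv.mono h) (N := N) (G := G) (m := m)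
      (l := l) (b := b) (μ := μ) (Z := Z) (a := a) (by omega) (by omega) (fun u hu h1 => by
        rcases unit_case hWEB hA hk hkn.le hgen hu (by rw [← hwt x u hu]; exact h1) with h2 | h2
        · exact Or.inl h2
        · right
          omega) (Q := Occ p)
      (fun j hj u h => (hstr j hj).1 u h)
      (fun j hj z hz z' hz' => (hstr j hj).2.1 z z' (mem_filter.1 hz).2 (mem_filter.1 hz').2)
      (fun j hj u hu => by
        by_contra h
        exact hu (mem_filter.2 ⟨mem_univ _, h⟩))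
      (fun j hj => (hstr j hj).2.2)
  -- the largest size of a small set
  set q := Fintype.card A ^ Fintype.card V with hq
  set M := Nat.findGreatest (fun M => M ^ 10 * 2 ^ Fintype.card V ≤ q ^ 10) q with hM
  have hM1 : M ^ 10 * 2 ^ Fintype.card V ≤ q ^ 10 := by
    have h0 : (fun M => M ^ 10 * 2 ^ Fintype.card V ≤ q ^ 10) 0 := by simp
    exact Nat.findGreatest_spec (P := fun M => M ^ 10 * 2 ^ Fintype.card V ≤ q ^ 10) (Nat.zero_le q) h0
  have hM2 : ∀ X : Finset (V → A), EG.Small X → X.card ≤ M := by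
    intro X hX
    refine Nat.le_findGreatest ?_ hX
    have h1 := Finset.card_le_univ X
    rwa [Fintype.card_fun] at h1
  set cutset : Lˣ → Finset (V → A) := fun h => univ.filter fun x =>
    ∃ u, Good D (scopes V k) x u ∧ a ≤ sz u ∧ sz u ≤ N - a ∧ wp (scopes V k) t' x (ex x u) = h with hcut
  set walkset : ℕ → Finset (V → A) := fun j => univ.filter fun x =>
    ∃ u r E, Good D (scopes V k) x u ∧ N - a < sz u ∧ Walks W a (b j) (μ j) (Z j) u r E with hwalk
  have hcover : (univ.filter fun x : V → A => ∃ u, MvPolynomial.coeff u f ≠ 0 ∧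
      u.support = (scopes V k).image (fun K => restr K x) ∧ ∀ β, u β ≤ D) ⊆
      (labels G m l b μ).biUnion cutset ∪ (range G).biUnion walkset := by
    intro x hx
    obtain ⟨_, u, hu1, hu2, hu3⟩ := mem_filter.1 hx
    have hgood : Good D (scopes V k) x u := by
      refine ⟨fun β hβ => ?_, hu3⟩
      have h1 := Finsupp.mem_support_iff.2 hβ
      rw [hu2] at h1
      obtain ⟨K, hK, h2⟩ := mem_image.1 h1
      exact ⟨K, hK, h2⟩
    have hsz : sz u = N := by
      unfold sz
      rw [hu2, Finset.card_image_of_injective _ (restr_injective x)]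
    have h1 := part_of_earlier hf hu1
    rcases h1 with h1 | ⟨j, hj, h1⟩
    · omega
    · rw [mem_union]
      rcases hdesc x j hj u h1 hgood (by omega) with ⟨u', h2, h3, h4, h5⟩ | ⟨i, hi, u', r, E, h2, h3, h4⟩
      · exact Or.inl (mem_biUnion.2 ⟨_, h5, mem_filter.2 ⟨mem_univ _, u', h2, h3, h4, (hwt x u' h2).symm⟩⟩)
      · exact Or.inr (mem_biUnion.2 ⟨i, mem_range.2 hi, mem_filter.2 ⟨mem_univ _, u', r, E, h2, h3, h4⟩⟩)
  have h1 : ((labels G m l b μ).biUnion cutset).card ≤ (G + ∑ j ∈ range G, m j * m j) * M := by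
    refine Finset.card_biUnion_le.trans ?_
    refine (Finset.sum_le_card_nsmul _ _ M fun h _ => hM2 _ (small_cut hWEB hA hk hkn.le hgen (a := a) (by omega)
      (by omega) (by omega) h fun x hx => (mem_filter.1 hx).2)).trans ?_
    rw [smul_eq_mul]
    exact Nat.mul_le_mul_right _ (card_labels G m l b μ)
  have h2 : ((range G).biUnion walkset).card ≤ (G + ∑ j ∈ range G, m j * m j) * M := by
    refine Finset.card_biUnion_le.trans ?_
    have h3 : ∀ j ∈ range G, (walkset j).card ≤ (m j * m j + 1) * M := by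
      intro j _
      have h4 := walks_small hWEB hWHB hA hk hkn.le hgen (a := a) (w0 := w0) (by omega) (by omega) (by omega)
        (by omega) (by omega) hWm hwt (b := b j) (μ := μ j) (Z := Z j) hM2 (X := walkset j)
        fun x hx => (mem_filter.1 hx).2
      rwa [Fintype.card_fin] at h4
    refine (Finset.sum_le_sum h3).trans ?_
    rw [← Finset.sum_mul]
    refine Nat.mul_le_mul_right _ ?_
    rw [Finset.sum_add_distrib, Finset.sum_const, card_range, smul_eq_mul, mul_one, add_comm]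
  have h3 : q ≤ 2 * R * s ^ 2 * M := by
    refine hR.trans ?_
    calc R * (univ.filter fun x : V → A => ∃ u, MvPolynomial.coeff u f ≠ 0 ∧
          u.support = (scopes V k).image (fun K => restr K x) ∧ ∀ β, u β ≤ D).card ≤
        R * ((G + ∑ j ∈ range G, m j * m j) * M + (G + ∑ j ∈ range G, m j * m j) * M) :=
          Nat.mul_le_mul_left _ ((Finset.card_le_card hcover).trans ((Finset.card_union_le _ _).trans
            (Nat.add_le_add h1 h2)))
      _ = 2 * R * (G + ∑ j ∈ range G, m j * m j) * M := by ring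
      _ ≤ 2 * R * s ^ 2 * M := Nat.mul_le_mul_right _ (Nat.mul_le_mul_left _ (sum_sq2 G m))
  have hqpos : 0 < q := pow_pos (by omega) _
  have hqpos : 0 < q ^ 10 := pow_pos hqpos 10
  refine Nat.le_of_mul_le_mul_left ?_ hqpos
  calc q ^ 10 * 2 ^ Fintype.card V ≤ (2 * R * s ^ 2 * M) ^ 10 * 2 ^ Fintype.card V :=
        Nat.mul_le_mul_right _ (Nat.pow_le_pow_left h3 10)
    _ = (2 * R * s ^ 2) ^ 10 * (M ^ 10 * 2 ^ Fintype.card V) := by ring
    _ ≤ (2 * R * s ^ 2) ^ 10 * q ^ 10 := Nat.mul_le_mul_left _ hM1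
    _ = q ^ 10 * (2 * R * s ^ 2) ^ 10 := mul_comm _ _

end

end Pool.Agent.Helper1x.EB
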