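import Pool.Agent.Helper1x.EP.Walk

/-!
# Cuts of the walks of a matrix gate, monomials with multiplicities
-/

set_option autoImplicit false

namespace Pool.Agent.Helper1x.EB

open Finset Pool.Agent.Helper1x.EP

section

variable {X H ι : Type*} [CommGroup H]

/-- the number of variables of a monomial -/
def sz (u : X →₀ ℕ) : ℕ := u.support.card

theorem sz_zero : sz (0 : X →₀ ℕ) = 0 := by
  unfold sz
  rw [Finsupp.support_zero, Finset.card_empty]

theorem sz_add (u v : X →₀ ℕ) : sz (u + v) ≤ sz u + sz v := by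
  classical
  exact (Finset.card_le_card Finsupp.support_add).trans (Finset.card_union_le _ _)

theorem sz_mono {u v : X →₀ ℕ} (h : u ≤ v) : sz u ≤ sz v := Finset.card_le_card (Finsupp.support_mono h)

theorem sz_pos {u : X →₀ ℕ} (h : u ≠ 0) : 0 < sz u := Finset.card_pos.2 (Finsupp.support_nonempty_iff.2 h)

/-- a multiplicative weight of monomials -/
def Mult (W : (X →₀ ℕ) → H) : Prop := W 0 = 1 ∧ ∀ u v, W (u + v) = W u * W v

theorem Mult.sum {W : (X →₀ ℕ) → H} (hW : Mult W) (s : Finset ι) (d : ι → X →₀ ℕ) :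
    W (∑ v ∈ s, d v) = ∏ v ∈ s, W (d v) := by
  classical
  induction s using Finset.induction_on with
  | empty => rw [Finset.sum_empty, Finset.prod_empty, hW.1]
  | insert v s hv ih => rw [Finset.sum_insert hv, Finset.prod_insert hv, hW.2, ih]

theorem sum_le_of_subset {s t : Finset ι} (h : s ⊆ t) (d : ι → X →₀ ℕ) : ∑ v ∈ s, d v ≤ ∑ v ∈ t, d v :=
  Finset.sum_le_sum_of_subset h

variable [DecidableEq ι] {W : (X →₀ ℕ) → H} {b μ : ι → H} {d : ι → X →₀ ℕ} {Z : Finset ι} {ψ : Equiv.Perm ι}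

theorem sum_trail {T : ι → ℕ} (hT : ∀ z ∈ Z, ∀ s, 0 < s → s < T z → (ψ ^ s) z ∉ Z) {z : ι} (hz : z ∈ Z) {t : ℕ}
    (ht : t ≤ T z) : ∑ v ∈ trail ψ z t, d v = ∑ s ∈ range t, d ((ψ ^ s) z) := by
  rw [trail, Finset.sum_image]
  intro s hs s' hs' h
  rw [Finset.coe_range, Set.mem_Iio] at hs hs'
  exact (seg_inj hT hz hz (lt_of_lt_of_le hs ht) (lt_of_lt_of_le hs' ht) h).2

/-- A closed set of columns which avoids `Z` has weight one. -/
theorem closed_one (hW : Mult W) (h1 : ∀ v, b (ψ v) * W (d v) = μ v) (h2 : ∀ v, v ∉ Z → b v = μ v)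
    {C : Finset ι} (hC : C.image ψ = C) (hCZ : Disjoint C Z) : W (∑ v ∈ C, d v) = 1 := by
  rw [hW.sum]
  have h3 : ∏ v ∈ C, b (ψ v) = ∏ v ∈ C, b v := by
    rw [← Finset.prod_image (f := b) (g := ψ) (fun x _ y _ h => ψ.injective h), hC]
  have h4 : ∏ v ∈ C, μ v = (∏ v ∈ C, μ v) * ∏ v ∈ C, W (d v) := by
    conv_lhs => rw [Finset.prod_congr rfl fun v _ => (h1 v).symm, Finset.prod_mul_distrib, h3]
    rw [Finset.prod_congr rfl fun v hv => h2 v (Finset.disjoint_left.1 hCZ hv)]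
  exact mul_left_cancel (h4.symm.trans (mul_one _).symm)

omit [DecidableEq ι] in
/-- The first time at which a walk has seen at least `a` variables. -/
theorem first_time {a : ℕ} (ha : 0 < a) (hstep : ∀ v, sz (d v) < a) {y : ι} {T : ℕ}
    (hT : a ≤ sz (∑ s ∈ range T, d ((ψ ^ s) y))) :
    ∃ t, 0 < t ∧ t ≤ T ∧ a ≤ sz (∑ s ∈ range t, d ((ψ ^ s) y)) ∧ sz (∑ s ∈ range t, d ((ψ ^ s) y)) < 2 * a := by
  classical
  have hc0 : sz (∑ s ∈ range 0, d ((ψ ^ s) y)) = 0 := by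
    rw [Finset.range_zero, Finset.sum_empty, sz_zero]
  have hst : ∀ t, sz (∑ s ∈ range (t + 1), d ((ψ ^ s) y)) < sz (∑ s ∈ range t, d ((ψ ^ s) y)) + a := by
    intro t
    rw [Finset.sum_range_succ]
    exact lt_of_le_of_lt (sz_add _ _) (Nat.add_lt_add_left (hstep _) _)
  have hex : ∃ t, a ≤ sz (∑ s ∈ range t, d ((ψ ^ s) y)) := ⟨T, hT⟩
  obtain ⟨t, ht⟩ : ∃ t, Nat.find hex = t + 1 := by
    refine Nat.exists_eq_succ_of_ne_zero fun h0 => ?_
    have h3 := Nat.find_spec hex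
    rw [h0, hc0] at h3
    omega
  have ht1 : a ≤ sz (∑ s ∈ range (t + 1), d ((ψ ^ s) y)) := ht ▸ Nat.find_spec hex
  have ht2 : t + 1 ≤ T := ht ▸ Nat.find_min' hex hT
  have ht3 : sz (∑ s ∈ range t, d ((ψ ^ s) y)) < a := by
    have h3 : ¬ a ≤ sz (∑ s ∈ range t, d ((ψ ^ s) y)) := Nat.find_min hex (by omega)
    omega
  have ht4 := hst t
  exact ⟨t + 1, Nat.succ_pos _, ht2, ht1, by omega⟩

variable [Fintype ι]

/-- the cut of a closed walk -/
theorem orbit_cut {a : ℕ} (ha : 0 < a) (hW : Mult W) (h1 : ∀ v, b (ψ v) * W (d v) = μ v)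
    (h2 : ∀ v, v ∉ Z → b v = μ v)
    (hunit : ∀ C : Finset ι, W (∑ v ∈ C, d v) = 1 → ∑ v ∈ C, d v = 0 ∨ a ≤ sz (∑ v ∈ C, d v))
    (hstep : ∀ v, sz (d v) < a) {v0 : ι} (hd : d v0 ≠ 0) (hv0 : ∀ s, (ψ ^ s) v0 ∉ Z) :
    ∃ (y v : ι) (u : X →₀ ℕ), u ≤ ∑ v, d v ∧ a ≤ sz u ∧ sz u < 2 * a ∧ μ y = b v * W u := by
  classical
  obtain ⟨T, hpos, hmem, hT⟩ := exists_rets ψ ({v0} : Finset ι)
  have hz0 : v0 ∈ ({v0} : Finset ι) := Finset.mem_singleton_self _
  have hTp := hpos _ hz0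
  have hret : (ψ ^ T v0) v0 = v0 := Finset.mem_singleton.1 (hmem _ hz0)
  have hOeq := trail_image hTp hret
  have hz0O : v0 ∈ trail ψ v0 (T v0) := mem_image.2 ⟨0, mem_range.2 hTp, by simp⟩
  have hOZ : Disjoint (trail ψ v0 (T v0)) Z := by
    rw [Finset.disjoint_left]
    intro v hv hvZ
    obtain ⟨s, _, rfl⟩ := mem_image.1 hv
    exact hv0 s hvZ
  have hone := closed_one hW h1 h2 hOeq hOZ
  have hne : ∑ v ∈ trail ψ v0 (T v0), d v ≠ 0 := by
    intro h0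
    exact hd ((Finset.sum_eq_zero_iff.1 h0) v0 hz0O)
  have hbig := (hunit _ hone).resolve_left hne
  rw [sum_trail hT hz0 le_rfl] at hbig
  obtain ⟨t, ht1, ht2, ht3, ht4⟩ := first_time (ψ := ψ) ha hstep hbig
  refine ⟨v0, (ψ ^ t) v0, ∑ s ∈ range t, d ((ψ ^ s) v0), ?_, ht3, ht4, ?_⟩
  · rw [← sum_trail hT hz0 ht2]
    exact sum_le_of_subset (Finset.subset_univ _) d
  · rw [hW.sum]
    exact walk h1 h2 (T := T v0) (fun s _ _ => hv0 s) t ht1 ht2

/-- The cuts of the walks of a matrix gate. -/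
theorem cut {a : ℕ} (ha : 0 < a) (hW : Mult W) (hβ : ∀ z ∈ Z, ∀ z' ∈ Z, b z' ≠ μ z)
    (h1 : ∀ v, b (ψ v) * W (d v) = μ v) (h2 : ∀ v, v ∉ Z → b v = μ v)
    (hunit : ∀ C : Finset ι, W (∑ v ∈ C, d v) = 1 → ∑ v ∈ C, d v = 0 ∨ a ≤ sz (∑ v ∈ C, d v))
    (hstep : ∀ v, sz (d v) < a) :
    (∃ (y v : ι) (u : X →₀ ℕ), u ≤ ∑ v, d v ∧ a ≤ sz u ∧ sz u < 2 * a ∧ μ y = b v * W u) ∨
    (∃ (r : ι → ι) (D : ι → X →₀ ℕ), (∀ z ∈ Z, r z ∈ Z) ∧ (∀ z ∈ Z, ∀ z' ∈ Z, r z = r z' → z = z') ∧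
      (∀ z ∈ Z, D z ≠ 0) ∧ (∀ z ∈ Z, μ z = b (r z) * W (D z)) ∧ (∀ z ∈ Z, sz (D z) < a) ∧
      ∑ z ∈ Z, D z = ∑ v, d v) := by
  classical
  by_cases hcl : ∃ v0, d v0 ≠ 0 ∧ ∀ s, (ψ ^ s) v0 ∉ Z
  · obtain ⟨v0, hd, hv0⟩ := hcl
    exact Or.inl (orbit_cut ha hW h1 h2 hunit hstep hd hv0)
  push Not at hcl
  obtain ⟨T, hpos, hmem, hT⟩ := exists_rets ψ Z
  by_cases hlong : ∃ z ∈ Z, a ≤ sz (∑ s ∈ range (T z), d ((ψ ^ s) z))
  · left
    obtain ⟨z, hz, hlong⟩ := hlong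
    obtain ⟨t, ht1, ht2, ht3, ht4⟩ := first_time (ψ := ψ) ha hstep hlong
    refine ⟨z, (ψ ^ t) z, ∑ s ∈ range t, d ((ψ ^ s) z), ?_, ht3, ht4, ?_⟩
    · rw [← sum_trail hT hz ht2]
      exact sum_le_of_subset (Finset.subset_univ _) d
    · rw [hW.sum]
      exact walk h1 h2 (hT z hz) t ht1 ht2
  · right
    push Not at hlong
    have heq : ∀ z ∈ Z, μ z = b ((ψ ^ T z) z) * W (∑ s ∈ range (T z), d ((ψ ^ s) z)) := by
      intro z hz
      rw [hW.sum]
      exact walk h1 h2 (hT z hz) (T z) (hpos z hz) le_rfl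
    refine ⟨fun z => (ψ ^ T z) z, fun z => ∑ s ∈ range (T z), d ((ψ ^ s) z), hmem,
      fun z hz z' hz' h => ret_inj hpos hT hz hz' h, fun z hz h0 => ?_, heq, hlong, ?_⟩
    · have h3 := heq z hz
      simp only at h0
      rw [h0, hW.1, mul_one] at h3
      exact hβ z hz _ (hmem z hz) h3.symm
    · set U : Finset ι := Z.biUnion fun z => trail ψ z (T z) with hU
      have hUim : U.image ψ ⊆ U := by
        intro v hv
        obtain ⟨x, hx, rfl⟩ := mem_image.1 hv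
        obtain ⟨z, hz, hx⟩ := mem_biUnion.1 hx
        obtain ⟨s, hs, rfl⟩ := mem_image.1 hx
        rw [mem_range] at hs
        rw [← Equiv.Perm.mul_apply, ← pow_succ']
        rcases Nat.lt_or_ge (s + 1) (T z) with h3 | h3
        · exact mem_biUnion.2 ⟨z, hz, mem_image.2 ⟨s + 1, mem_range.2 h3, rfl⟩⟩
        · have h4 : s + 1 = T z := by omega
          rw [h4]
          exact mem_biUnion.2 ⟨_, hmem z hz, mem_image.2 ⟨0, mem_range.2 (hpos _ (hmem z hz)), by simp⟩⟩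
      have hUeq : U.image ψ = U := by
        refine Finset.eq_of_subset_of_card_le hUim ?_
        rw [Finset.card_image_of_injective _ ψ.injective]
      have hCim : Uᶜ.image ψ = Uᶜ := by
        rw [Finset.compl_eq_univ_sdiff, Finset.image_sdiff _ _ ψ.injective, Finset.image_univ_equiv, hUeq]
      have hzero : ∀ v, v ∉ U → d v = 0 := by
        intro v hv
        by_contra hdv
        obtain ⟨s, hs⟩ := hcl v hdv
        have hall : ∀ s, (ψ ^ s) v ∈ Uᶜ := by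
          intro s
          induction s with
          | zero => rw [pow_zero, Equiv.Perm.one_apply, Finset.mem_compl]; exact hv
          | succ s ih =>
            rw [pow_succ', Equiv.Perm.mul_apply, ← hCim]
            exact mem_image_of_mem ψ ih
        have h3 := hall s
        rw [Finset.mem_compl] at h3
        exact h3 (mem_biUnion.2 ⟨_, hs, mem_image.2 ⟨0, mem_range.2 (hpos _ hs), by simp⟩⟩)
      have hsumU : ∑ v, d v = ∑ v ∈ U, d v := by
        symm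
        exact Finset.sum_subset (Finset.subset_univ _) fun v _ hv => hzero v hv
      rw [hsumU, hU, Finset.sum_biUnion]
      · exact Finset.sum_congr rfl fun z hz => (sum_trail hT hz le_rfl).symm
      · intro z hz z' hz' hzz
        change Disjoint _ _
        rw [Finset.disjoint_left]
        intro v hv hv'
        obtain ⟨s, hs, hs1⟩ := mem_image.1 hv
        obtain ⟨s', hs', hs1'⟩ := mem_image.1 hv'
        exact hzz (seg_inj hT hz hz' (mem_range.1 hs) (mem_range.1 hs') (hs1.trans hs1'.symm)).1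

end

end Pool.Agent.Helper1x.EB
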