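import Pool.Agent.Helper1x.EB.Gates

/-!
# The descent and the orbits, monomials with multiplicities
-/

set_option autoImplicit false

namespace Pool.Agent.Helper1x.EB

open Finset Pool.Agent.Helper1x.EP

section

variable {X H : Type*} [CommGroup H]

/-- the walks between the unmatched labels of a gate -/
def Walks {ι : Type} (W : (X →₀ ℕ) → H) (a : ℕ) (b μ : ι → H) (Z : Finset ι) (u : X →₀ ℕ) (r : ι → ι)
    (D : ι → X →₀ ℕ) : Prop :=
  (∀ z ∈ Z, r z ∈ Z) ∧ (∀ z ∈ Z, ∀ z' ∈ Z, r z = r z' → z = z') ∧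
    (∀ z ∈ Z, D z ≠ 0) ∧ (∀ z ∈ Z, μ z = b (r z) * W (D z)) ∧ (∀ z ∈ Z, sz (D z) < a) ∧ ∑ z ∈ Z, D z = u

open Classical in
/-- the labels of the cuts -/
noncomputable def labels (G : ℕ) (m : ℕ → ℕ) (l : ℕ → H) (b μ : ∀ k, Fin (m k) → H) : Finset H :=
  (range G).image l ∪
    ((range G).biUnion fun k => (univ : Finset (Fin (m k) × Fin (m k))).image fun y => (b k y.2)⁻¹ * μ k y.1)

theorem card_labels (G : ℕ) (m : ℕ → ℕ) (l : ℕ → H) (b μ : ∀ k, Fin (m k) → H) :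
    (labels G m l b μ).card ≤ G + ∑ k ∈ range G, m k * m k := by
  classical
  unfold labels
  refine (Finset.card_union_le _ _).trans (Nat.add_le_add ?_ ?_)
  · refine Finset.card_image_le.trans ?_
    rw [card_range]
  · refine Finset.card_biUnion_le.trans (Finset.sum_le_sum fun k _ => Finset.card_image_le.trans ?_)
    rw [Finset.card_univ, Fintype.card_prod, Fintype.card_fin]

/-- The descent: a large monomial in a gate has a cut in the window, or walks at an earlier gate. -/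
theorem descent {W : (X →₀ ℕ) → H} (hW : Mult W) {Good : (X →₀ ℕ) → Prop} (hmono : ∀ u v, u ≤ v → Good v → Good u)
    {N : ℕ} {G : ℕ} {m : ℕ → ℕ} {l : ℕ → H} {b μ : ∀ k, Fin (m k) → H} {Z : ∀ k, Finset (Fin (m k))} {a : ℕ}
    (ha : 2 ≤ a) (han : 3 * a ≤ N) (hunit : ∀ u, Good u → W u = 1 → u = 0 ∨ a ≤ sz u)
    {Q : ℕ → (X →₀ ℕ) → Prop} (hlab : ∀ k < G, ∀ u, Q k u → W u = l k)
    (hβ : ∀ k < G, ∀ z ∈ Z k, ∀ z' ∈ Z k, b k z' ≠ μ k z) (h2 : ∀ k < G, ∀ v, v ∉ Z k → b k v = μ k v)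
    (hstep : ∀ k < G, ∀ u, Q k u → (∃ u1 u2, u1 + u2 = u ∧ Part Q k u1 ∧ Part Q k u2) ∨
      (∃ (ψ : Equiv.Perm (Fin (m k))) (d : Fin (m k) → X →₀ ℕ), ∑ j, d j = u ∧
        (∀ j, b k (ψ j) * W (d j) = μ k j) ∧ ∀ j, Part Q k (d j))) :
    ∀ k < G, ∀ u, Q k u → Good u → N - a < sz u →
      (∃ u', Good u' ∧ a ≤ sz u' ∧ sz u' ≤ N - a ∧ W u' ∈ labels G m l b μ) ∨
      ∃ k < G, ∃ u' r D, Good u' ∧ N - a < sz u' ∧ Walks W a (b k) (μ k) (Z k) u' r D := by
  classical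
  intro k
  induction k using Nat.strong_induction_on with
  | _ k ih =>
    intro hk u hQ hG hu
    -- a part with at least `a` variables
    have hpart : ∀ u1, Part Q k u1 → Good u1 → a ≤ sz u1 →
        (∃ u', Good u' ∧ a ≤ sz u' ∧ sz u' ≤ N - a ∧ W u' ∈ labels G m l b μ) ∨
        ∃ k < G, ∃ u' r D, Good u' ∧ N - a < sz u' ∧ Walks W a (b k) (μ k) (Z k) u' r D := by
      intro u1 hu1 hG1 ha1
      rcases hu1 with h3 | ⟨j, hj, hQj⟩
      · omega
      · rcases Nat.lt_or_ge (N - a) (sz u1) with h4 | h4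
        · exact ih j hj (hj.trans hk) u1 hQj hG1 h4
        · left
          refine ⟨u1, hG1, ha1, h4, ?_⟩
          rw [hlab j (hj.trans hk) u1 hQj]
          unfold labels
          rw [mem_union]
          exact Or.inl (mem_image.2 ⟨j, mem_range.2 (hj.trans hk), rfl⟩)
    rcases hstep k hk u hQ with ⟨u1, u2, h3, h4, h5⟩ | ⟨ψ, d, hd, h3, h4⟩
    · have h6 := sz_add u1 u2
      rw [h3] at h6
      rcases Nat.lt_or_ge (sz u1) a with h7 | h7
      · exact hpart u2 h5 (hmono _ _ (h3 ▸ le_add_self) hG) (by omega)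
      · exact hpart u1 h4 (hmono _ _ (h3 ▸ le_self_add) hG) h7
    · have hsub : ∀ C : Finset (Fin (m k)), Good (∑ v ∈ C, d v) := fun C =>
        hmono _ _ (hd ▸ sum_le_of_subset (Finset.subset_univ C) d) hG
      by_cases hbig : ∃ v, a ≤ sz (d v)
      · obtain ⟨v, hv⟩ := hbig
        have h5 := hsub {v}
        rw [Finset.sum_singleton] at h5
        exact hpart _ (h4 v) h5 hv
      · push Not at hbig
        rcases cut (Z := Z k) (b := b k) (μ := μ k) (ψ := ψ) (d := d) (a := a) (by omega) hW (hβ k hk) h3 (h2 k hk)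
          (fun C hC => hunit _ (hsub C) hC) hbig with
          ⟨y, v, u', h5, h6, h7, h8⟩ | ⟨r, D, hr1, hr2, hD1, hD2, hD3, hD4⟩
        · left
          refine ⟨u', hmono _ _ (hd ▸ h5) hG, h6, by omega, ?_⟩
          unfold labels
          rw [mem_union]
          refine Or.inr (mem_biUnion.2 ⟨k, mem_range.2 hk, mem_image.2 ⟨(y, v), mem_univ _, ?_⟩⟩)
          simp only
          rw [h8, inv_mul_cancel_left]
        · right
          exact ⟨k, hk, u, r, D, hG, hu, hr1, hr2, hD1, hD2, hD3, hD4.trans hd⟩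

/-- Two systems of walks at the same gate: the orbit of a label and its window. -/
theorem relative {ι : Type} [DecidableEq ι] {W : (X →₀ ℕ) → H} (hW : Mult W) {a : ℕ} {b μ : ι → H} {Z : Finset ι}
    {u u' : X →₀ ℕ} {r r' : ι → ι} {D D' : ι → X →₀ ℕ} (hx : Walks W a b μ Z u r D)
    (hy : Walks W a b μ Z u' r' D') {z0 : ι} (hz0 : z0 ∈ Z) {w0 : ℕ} :
    ∃ S ⊆ Z, z0 ∈ S ∧ W (∑ z ∈ S, D' z) = W (∑ z ∈ S, D z) ∧
      (0 < w0 → w0 ≤ sz (∑ z ∈ S, D z) → ∃ v ∈ Z, ∃ v' ∈ Z, ∃ S' ⊆ Z, w0 ≤ sz (∑ z ∈ S', D z) ∧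
        sz (∑ z ∈ S', D z) < w0 + a ∧ b v * W (∑ z ∈ S', D' z) = b v' * W (∑ z ∈ S', D z)) := by
  classical
  obtain ⟨hr1, hr2, hD1, hD2, hD3, _⟩ := hx
  obtain ⟨hr1', hr2', hD1', hD2', _, _⟩ := hy
  set ρ : Equiv.Perm {z // z ∈ Z} := Equiv.ofBijective (fun z => ⟨r z.1, hr1 z.1 z.2⟩)
    (Finite.injective_iff_bijective.1 fun z z' h => Subtype.ext (hr2 _ z.2 _ z'.2 (congrArg Subtype.val h))) with hρ
  set ρ' : Equiv.Perm {z // z ∈ Z} := Equiv.ofBijective (fun z => ⟨r' z.1, hr1' z.1 z.2⟩)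
    (Finite.injective_iff_bijective.1 fun z z' h => Subtype.ext (hr2' _ z.2 _ z'.2 (congrArg Subtype.val h))) with hρ'
  set π : Equiv.Perm {z // z ∈ Z} := ρ⁻¹ * ρ' with hπ
  have hρv : ∀ z, (ρ z).1 = r z.1 := fun z => rfl
  have hρv' : ∀ z, (ρ' z).1 = r' z.1 := fun z => rfl
  have hπv : ∀ z, r (π z).1 = r' z.1 := by
    intro z
    rw [← hρv, ← hρv', hπ, ← Equiv.Perm.mul_apply, ← mul_assoc, mul_inv_cancel, one_mul]
  have hkey : ∀ z : {z // z ∈ Z}, b (r z.1) * W (D z.1) = b (r (π z).1) * W (D' z.1) := by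
    intro z
    rw [hπv, ← hD2 z.1 z.2, ← hD2' z.1 z.2]
  set s0 : {z // z ∈ Z} := ⟨z0, hz0⟩ with hs0
  obtain ⟨Tf, hpos, hmem, hT⟩ := exists_rets π ({s0} : Finset {z // z ∈ Z})
  have hs00 : s0 ∈ ({s0} : Finset {z // z ∈ Z}) := Finset.mem_singleton_self _
  set T := Tf s0 with hTdef
  have hTp : 0 < T := hpos _ hs00
  have hret : (π ^ T) s0 = s0 := Finset.mem_singleton.1 (hmem _ hs00)
  have hinj : ∀ i < T, ∀ j < T, (π ^ i) s0 = (π ^ j) s0 → i = j := fun i hi j hj h =>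
    (seg_inj hT hs00 hs00 hi hj h).2
  set S : ℕ → Finset ι := fun J => (range J).image fun j => ((π ^ j) s0).1 with hS
  have hSZ : ∀ J, S J ⊆ Z := by
    intro J z hz
    obtain ⟨j, _, rfl⟩ := mem_image.1 hz
    exact ((π ^ j) s0).2
  have hnot : ∀ J < T, ((π ^ J) s0).1 ∉ S J := by
    intro J hJ h
    obtain ⟨j, hj, h1⟩ := mem_image.1 h
    rw [mem_range] at hj
    have := hinj j (hj.trans hJ) J hJ (Subtype.ext h1)
    omega
  have hSs : ∀ J, S (J + 1) = insert ((π ^ J) s0).1 (S J) := by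
    intro J
    ext z
    simp only [hS, mem_image, mem_insert, mem_range]
    constructor
    · rintro ⟨j, hj, h⟩
      rcases Nat.lt_or_ge j J with h1 | h1
      · exact Or.inr ⟨j, h1, h⟩
      · have h2 : j = J := by omega
        subst h2
        exact Or.inl h.symm
    · rintro (h | ⟨j, hj, h⟩)
      · exact ⟨J, by omega, h.symm⟩
      · exact ⟨j, by omega, h⟩
  have hsum : ∀ (E : ι → X →₀ ℕ), ∀ J < T, ∑ z ∈ S (J + 1), E z = E ((π ^ J) s0).1 + ∑ z ∈ S J, E z := by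
    intro E J hJ
    rw [hSs, Finset.sum_insert (hnot J hJ)]
  have hrel : ∀ J ≤ T, b (r ((π ^ J) s0).1) * W (∑ z ∈ S J, D' z) = b (r z0) * W (∑ z ∈ S J, D z) := by
    intro J
    induction J with
    | zero =>
      intro _
      have h1 : S 0 = ∅ := by simp [hS]
      rw [h1, Finset.sum_empty, Finset.sum_empty, pow_zero, Equiv.Perm.one_apply]
    | succ J ih =>
      intro hJ
      have hJ' : J < T := by omega
      have h3 : (π ^ (J + 1)) s0 = π ((π ^ J) s0) := by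
        rw [pow_succ', Equiv.Perm.mul_apply]
      have h4 := hkey ((π ^ J) s0)
      have h5 := ih (by omega)
      rw [h3, hsum D' J hJ', hsum D J hJ', hW.2, hW.2]
      calc b (r (π ((π ^ J) s0)).1) * (W (D' ((π ^ J) s0).1) * W (∑ z ∈ S J, D' z))
          = (b (r (π ((π ^ J) s0)).1) * W (D' ((π ^ J) s0).1)) * W (∑ z ∈ S J, D' z) := by rw [mul_assoc]
        _ = (b (r ((π ^ J) s0).1) * W (D ((π ^ J) s0).1)) * W (∑ z ∈ S J, D' z) := by rw [h4]
        _ = (b (r ((π ^ J) s0).1) * W (∑ z ∈ S J, D' z)) * W (D ((π ^ J) s0).1) := by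
            rw [mul_assoc, mul_comm (W (D _)), ← mul_assoc]
        _ = b (r z0) * (W (D ((π ^ J) s0).1) * W (∑ z ∈ S J, D z)) := by rw [h5, mul_assoc, mul_comm (W (D _))]
  refine ⟨S T, hSZ T, ?_, ?_, ?_⟩
  · exact mem_image.2 ⟨0, mem_range.2 hTp, by simp [hs0]⟩
  · have h1 := hrel T le_rfl
    rw [hret] at h1
    exact mul_left_cancel h1
  · intro hw0 hWT
    have hP0 : sz (∑ z ∈ S 0, D z) = 0 := by
      have h1 : S 0 = ∅ := by simp [hS]
      rw [h1, Finset.sum_empty, sz_zero]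
    have hex : ∃ J, w0 ≤ sz (∑ z ∈ S J, D z) := ⟨T, hWT⟩
    obtain ⟨J, hJ⟩ : ∃ J, Nat.find hex = J + 1 := by
      refine Nat.exists_eq_succ_of_ne_zero fun h0 => ?_
      have h3 := Nat.find_spec hex
      rw [h0, hP0] at h3
      omega
    have hJ1 : w0 ≤ sz (∑ z ∈ S (J + 1), D z) := hJ ▸ Nat.find_spec hex
    have hJ2 : J + 1 ≤ T := hJ ▸ Nat.find_min' hex hWT
    have hJ3 : sz (∑ z ∈ S J, D z) < w0 := by
      have h3 : ¬ w0 ≤ sz (∑ z ∈ S J, D z) := Nat.find_min hex (by omega)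
      omega
    have hJ4 : sz (∑ z ∈ S (J + 1), D z) < w0 + a := by
      rw [hsum D J (by omega)]
      have h4 := sz_add (D ((π ^ J) s0).1) (∑ z ∈ S J, D z)
      have h5 := hD3 _ ((π ^ J) s0).2
      omega
    exact ⟨_, hr1 _ ((π ^ (J + 1)) s0).2, _, hr1 z0 hz0, S (J + 1), hSZ _, hJ1, hJ4, hrel (J + 1) hJ2⟩

end

end Pool.Agent.Helper1x.EB
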