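import Pool.Agent.Helper1x.EB.Cut
import Pool.Agent.Helper1x.EC.Gates

/-!
# The parts of monomials in the gates of a circuit
-/

set_option autoImplicit false

namespace Pool.Agent.Helper1x.EB

open Finset Matrix Pool.Agent.Helper1x.EP
open Pool.Agent.Helper1x.EC (Circuit Earlier Quadratic DetGate MatrixFunctionGate scale ju ju_injective coeff_mul_ne
  det_term)

variable {X : Type*} {K : Type*} [Field K]

/-- a monomial which is affine or occurs in an earlier gate -/
def Part (Q : ℕ → (X →₀ ℕ) → Prop) (k : ℕ) (u : X →₀ ℕ) : Prop := sz u ≤ 1 ∨ ∃ j < k, Q j u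

/-- a monomial occurs in a gate -/
def Occ (p : ℕ → MvPolynomial X K) (k : ℕ) (u : X →₀ ℕ) : Prop := MvPolynomial.coeff u (p k) ≠ 0

theorem part_of_earlier {p : ℕ → MvPolynomial X K} {k : ℕ} {f : MvPolynomial X K}
    (hf : f ∈ Earlier p k) {u : X →₀ ℕ} (h : MvPolynomial.coeff u f ≠ 0) : Part (Occ p) k u := by
  classical
  by_contra hcon
  unfold Part at hcon
  push Not at hcon
  obtain ⟨h1, h2⟩ := hcon
  apply h
  have h3 : Earlier p k ≤ LinearMap.ker (MvPolynomial.lcoeff K u) := by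
    refine Submodule.span_le.2 ?_
    rintro y ((rfl | ⟨y, rfl⟩) | ⟨j, hj, rfl⟩)
    · change MvPolynomial.coeff u 1 = 0
      rw [MvPolynomial.coeff_one, if_neg]
      intro h4
      rw [← h4, sz_zero] at h1
      omega
    · change MvPolynomial.coeff u (MvPolynomial.X y) = 0
      rw [MvPolynomial.coeff_X, if_neg]
      intro h4
      rw [← h4] at h1
      have h5 : sz (Finsupp.single y 1 : X →₀ ℕ) = 1 := by
        unfold sz
        rw [Finsupp.support_single_ne_zero _ one_ne_zero, Finset.card_singleton]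
      omega
    · change MvPolynomial.coeff u (p j) = 0
      by_contra h4
      exact h2 j hj h4
  exact h3 hf

theorem quadratic_parts {p : ℕ → MvPolynomial X K} {k : ℕ} (h : Quadratic p k) {u : X →₀ ℕ} (hA : Occ p k u) :
    ∃ u1 u2, u1 + u2 = u ∧ Part (Occ p) k u1 ∧ Part (Occ p) k u2 := by
  obtain ⟨m1, m2, h1, ⟨f1, hf1, h2⟩, f2, hf2, h3⟩ := coeff_mul_ne h hA
  exact ⟨m1, m2, h1, part_of_earlier hf1 h2, part_of_earlier hf2 h3⟩

theorem coeff_scale_c (c : X → Kˣ) (f : MvPolynomial X K) (m : X →₀ ℕ) :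
    MvPolynomial.coeff m (scale (fun x => (c x : K)) f) = ((mwt c m : Kˣ) : K) * MvPolynomial.coeff m f := by
  rw [mwt_val]
  exact Pool.Agent.Helper1x.EQ.coeff_scale _ f m

theorem mwt_zero (c : X → Kˣ) : mwt c 0 = 1 := by simp [mwt]

theorem mwt_add (c : X → Kˣ) (u v : X →₀ ℕ) : mwt c (u + v) = mwt c u * mwt c v := by
  classical
  unfold mwt
  exact Finsupp.prod_add_index' (h := fun x k => c x ^ k) (fun x => pow_zero _) (fun x a b => pow_add _ _ _)

/-- what the descent needs about a gate -/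
def Str {H : Type*} [CommGroup H] (W : (X →₀ ℕ) → H) (Q : ℕ → (X →₀ ℕ) → Prop) (k : ℕ) {m : ℕ}
    (b μ : Fin m → H) : Prop :=
  (∀ z z', b z ≠ μ z → b z' ≠ μ z' → b z' ≠ μ z) ∧ ∀ u, Q k u →
    (∃ u1 u2, u1 + u2 = u ∧ Part Q k u1 ∧ Part Q k u2) ∨
    (∃ (ψ : Equiv.Perm (Fin m)) (d : Fin m → X →₀ ℕ), ∑ j, d j = u ∧
      (∀ j, b (ψ j) * W (d j) = μ j) ∧ ∀ j, Part Q k (d j))

variable {L : Type*} [Field L] [Algebra K L] {c : X → Kˣ}

/-- the weight over the larger field -/
noncomputable def wL (L : Type*) [Field L] [Algebra K L] (c : X → Kˣ) (u : X →₀ ℕ) : Lˣ := ju K L (mwt c u)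

theorem wL_mult : Mult (wL L c) := by
  refine ⟨?_, fun u v => ?_⟩
  · unfold wL
    rw [mwt_zero, map_one]
  · unfold wL
    rw [mwt_add, map_mul]

theorem wL_eq (u : X →₀ ℕ) : wL L c u = mwt (fun x => ju K L (c x)) u := by
  unfold wL mwt Finsupp.prod
  rw [map_prod]
  exact Finset.prod_congr rfl fun x _ => map_pow _ _ _

theorem det_str [IsAlgClosed L] {p : ℕ → MvPolynomial X K} {k m : ℕ}
    (h : DetGate (fun x => (c x : K)) p k m) : ∃ b μ : Fin m → Lˣ, Str (wL L c) (Occ p) k b μ := by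
  classical
  obtain ⟨M, B, C, hM, hB, hC, hBC, hp⟩ := h
  set φ := algebraMap K L with hφ
  set ML : Matrix (Fin m) (Fin m) (MvPolynomial X L) := M.map (MvPolynomial.map φ) with hML
  have hdet : ∀ R : Matrix (Fin m) (Fin m) K, IsUnit R.det → IsUnit (R.map φ).det := by
    intro R hR
    rw [← RingHom.mapMatrix_apply, ← RingHom.map_det]
    exact hR.map φ
  have hmapC : ∀ R : Matrix (Fin m) (Fin m) K, (R.map MvPolynomial.C).map (MvPolynomial.map φ) =
      ((R.map φ).map MvPolynomial.C : Matrix (Fin m) (Fin m) (MvPolynomial X L)) := by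
    intro R
    ext1 i j
    simp only [Matrix.map_apply]
    exact MvPolynomial.map_C φ _
  have hBC' : ML.map (Pool.Agent.Helper1x.EQ.scale fun x => ((ju K L (c x) : Lˣ) : L)) =
      (B.map φ).map MvPolynomial.C * ML * (C.map φ).map MvPolynomial.C := by
    have h1 : ML.map (Pool.Agent.Helper1x.EQ.scale fun x => ((ju K L (c x) : Lˣ) : L)) =
        (M.map (scale fun x => (c x : K))).map (MvPolynomial.map φ) := by
      ext1 i j
      simp only [hML, Matrix.map_apply]
      exact scale_map φ _ _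
    rw [h1, hBC, Matrix.map_mul, Matrix.map_mul, hmapC, hmapC]
  obtain ⟨P, Q, ν, μ, hP, hQ, hPQ⟩ := graded_form (hdet B hB) (hdet C hC) hBC'
  obtain ⟨β, hβ⟩ := exists_beta ν μ
  refine ⟨fun u => ν (β u), μ, fun z z' => hβ z z', fun u hu => Or.inr ?_⟩
  set N1 : Matrix (Fin m) (Fin m) (MvPolynomial X L) := P.map MvPolynomial.C * ML * Q.map MvPolynomial.C with hN1
  have hε : ((Equiv.Perm.sign β : ℤ) : L) ≠ 0 := by
    rcases Int.units_eq_one_or (Equiv.Perm.sign β) with h | h <;> rw [h] <;> simp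
  have hN : MvPolynomial.coeff u (N1.submatrix β id).det ≠ 0 := by
    rw [Matrix.det_permute, hN1, Pool.Agent.Helper1x.EP.det_conj, hML, Pool.Agent.Helper1x.EP.det_map, ← hp]
    have h1 : ((Equiv.Perm.sign β : ℤ) : MvPolynomial X L) * (MvPolynomial.C P.det * MvPolynomial.map φ (p k) *
        MvPolynomial.C Q.det) = MvPolynomial.C (((Equiv.Perm.sign β : ℤ) : L) * P.det * Q.det) *
        MvPolynomial.map φ (p k) := by
      rw [map_mul, map_mul, map_intCast]
      ring
    rw [h1, MvPolynomial.coeff_C_mul, MvPolynomial.coeff_map]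
    refine mul_ne_zero (mul_ne_zero (mul_ne_zero hε hP.ne_zero) hQ.ne_zero) ?_
    rw [Ne, map_eq_zero]
    exact hu
  obtain ⟨ψ, hψ⟩ := det_term hN
  obtain ⟨d, hd1, hd2⟩ := coeff_prod_ne univ _ _ hψ
  refine ⟨ψ, d, hd1, fun j => ?_, fun j => ?_⟩
  · have h1 := hPQ _ _ _ (hd2 j (mem_univ j))
    rw [← wL_eq] at h1
    exact h1
  · have h1 := hd2 j (mem_univ j)
    rw [Matrix.submatrix_apply, hN1, coeff_conj, Matrix.mul_apply] at h1
    obtain ⟨j', _, hj⟩ := Finset.exists_ne_zero_of_sum_ne_zero h1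
    have h2 := left_ne_zero_of_mul hj
    rw [Matrix.mul_apply] at h2
    obtain ⟨i, _, hi⟩ := Finset.exists_ne_zero_of_sum_ne_zero h2
    have h3 := right_ne_zero_of_mul hi
    rw [hML, Matrix.map_apply, Matrix.map_apply, MvPolynomial.coeff_map] at h3
    exact part_of_earlier (hM i j') fun h0 => h3 (by rw [h0, map_zero])

theorem matfun_str {p : ℕ → MvPolynomial X K} {k m : ℕ}
    (h : MatrixFunctionGate (fun x => (c x : K)) p k m) : ∃ b μ : Fin m → Lˣ, Str (wL L c) (Occ p) k b μ := by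
  classical
  obtain ⟨M, b, μ, χ, hM, hgr, hp⟩ := h
  obtain ⟨β, hβ⟩ := exists_beta (fun u => (ju K L (b u))⁻¹) (fun v => ju K L (μ v))
  refine ⟨fun u => (ju K L (b (β u)))⁻¹, fun v => ju K L (μ v), fun z z' => hβ z z', fun u hu => Or.inr ?_⟩
  have h1 : MvPolynomial.coeff u (p k) ≠ 0 := hu
  rw [hp, MvPolynomial.coeff_sum] at h1
  obtain ⟨π, _, hπ⟩ := Finset.exists_ne_zero_of_sum_ne_zero h1
  rw [MvPolynomial.coeff_C_mul] at hπ
  obtain ⟨d, hd1, hd2⟩ := coeff_prod_ne univ _ _ (right_ne_zero_of_mul hπ)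
  refine ⟨β⁻¹ * π, d, hd1, fun j => ?_, fun j => part_of_earlier (hM _ _) (hd2 j (mem_univ j))⟩
  have h2 : mwt c (d j) = b (π j) * μ j := by
    have h3 := congrArg (MvPolynomial.coeff (d j)) (hgr (π j) j)
    rw [coeff_scale_c, MvPolynomial.coeff_C_mul] at h3
    exact Units.ext (mul_right_cancel₀ (hd2 j (mem_univ j)) h3)
  have h3 : β ((β⁻¹ * π) j) = π j := by
    rw [← Equiv.Perm.mul_apply, ← mul_assoc, mul_inv_cancel, one_mul]
  simp only [h3]
  unfold wL
  rw [h2, map_mul, inv_mul_cancel_left]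

theorem circuit_str [IsAlgClosed L] {G : ℕ}
    {p : ℕ → MvPolynomial X K} {m : ℕ → ℕ} (hc : Circuit (fun x => (c x : K)) G p m) (k : ℕ) :
    ∃ (l : Lˣ) (b μ : Fin (m k) → Lˣ), k < G →
      (∀ u, Occ p k u → wL L c u = l) ∧ Str (wL L c) (Occ p) k b μ := by
  classical
  by_cases hk : k < G
  · obtain ⟨⟨a, ha⟩, hgate⟩ := hc k hk
    have hlab : ∃ l : Lˣ, ∀ u, Occ p k u → wL L c u = l := by
      by_cases hex : ∃ u, Occ p k u
      · obtain ⟨u0, h0⟩ := hex
        have hval : ∀ u, Occ p k u → ((mwt c u : Kˣ) : K) = a := by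
          intro u hu
          have h3 := congrArg (MvPolynomial.coeff u) ha
          rw [coeff_scale_c, MvPolynomial.coeff_C_mul] at h3
          exact mul_right_cancel₀ hu h3
        refine ⟨ju K L (mwt c u0), fun u hu => ?_⟩
        unfold wL
        rw [Units.ext ((hval u hu).trans (hval u0 h0).symm)]
      · exact ⟨1, fun u hu => absurd ⟨u, hu⟩ hex⟩
    obtain ⟨l, hl⟩ := hlab
    have hstr : ∃ b μ : Fin (m k) → Lˣ, Str (wL L c) (Occ p) k b μ := by
      rcases hgate with h | h | h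
      · exact ⟨fun _ => 1, fun _ => 1, fun z z' h1 => absurd rfl h1, fun u hu => Or.inl (quadratic_parts h hu)⟩
      · exact det_str h
      · exact matfun_str h
    obtain ⟨b, μ, h⟩ := hstr
    exact ⟨l, b, μ, fun _ => ⟨hl, h⟩⟩
  · exact ⟨1, fun _ => 1, fun _ => 1, fun h => absurd h hk⟩

end Pool.Agent.Helper1x.EB
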