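import Pool.Agent.Helper1x.EB.Def

/-!
# Project EB, piece GENI: one generic gauge symmetry for all degrees
-/

set_option autoImplicit false

namespace Pool.Agent.Helper1x.EB

open Finset Pool.Agent.HS38.GT

namespace Geni

/-- the primes are multiplicatively independent -/
theorem indep {F : Type} [Field F] {J : Type} [Fintype J] [CharZero F]
    (P : J → Nat.Primes) (hP : Function.Injective P) (U : J → Fˣ)
    (hU : ∀ j, (U j : F) = ((P j : ℕ) : F)) (f : J → ℤ) (h : ∏ j, U j ^ f j = 1) :
    ∀ j, f j = 0 := by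
  classical
  have h1 : ∏ j, U j ^ (f j).toNat = ∏ j, U j ^ (-f j).toNat := by
    have h2 : ∏ j, U j ^ f j = (∏ j, U j ^ (f j).toNat) / ∏ j, U j ^ (-f j).toNat := by
      rw [← prod_div_distrib]
      refine prod_congr rfl fun j _ => ?_
      rw [← zpow_natCast, ← zpow_natCast, div_eq_mul_inv, ← zpow_sub, Int.toNat_sub_toNat_neg]
    rw [h2, div_eq_one] at h
    exact h
  have h2 : ∏ j, (P j : ℕ) ^ (f j).toNat = ∏ j, (P j : ℕ) ^ (-f j).toNat := by
    have h3 := congrArg (Units.val) h1
    rw [Units.coe_prod, Units.coe_prod] at h3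
    simp only [Units.val_pow_eq_pow_val, hU] at h3
    exact_mod_cast h3
  have key : ∀ (a : J → ℕ) (j₀ : J), (∏ j, (P j : ℕ) ^ a j).factorization (P j₀ : ℕ) = a j₀ := by
    intro a j₀
    rw [Nat.factorization_prod fun j _ => pow_ne_zero _ (P j).2.ne_zero, Finsupp.finsetSum_apply,
      sum_eq_single_of_mem j₀ (mem_univ _)]
    · rw [(P j₀).2.factorization_pow, Finsupp.single_eq_same]
    · intro j _ hj
      rw [(P j).2.factorization_pow, Finsupp.single_eq_of_ne]
      intro h5
      exact hj (hP (Subtype.ext h5.symm))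
  intro j
  have h3 := key (fun j => (f j).toNat) j
  have h4 := key (fun j => (-f j).toNat) j
  rw [h2, h4] at h3
  have h5 := Int.toNat_sub_toNat_neg (f j)
  omega

end Geni

/-- GENI. -/
theorem t_GENI : ∀ (F : Type) [Field F] [CharZero F] (V A : Type) [Fintype V] [DecidableEq V]
    [Fintype A] [DecidableEq A] (H : Finset (Finset V)), ∃ t : Finset V → V → A → Fˣ,
    ∀ D : ℕ, Generic D H t := by
  intro F _ _ V A _ _ _ _ H
  have hJ : ∃ P : Finset V × V × A → Nat.Primes, Function.Injective P :=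
    ⟨fun j => Infinite.natEmbedding Nat.Primes (Fintype.equivFin _ j),
      fun j j' h => (Fintype.equivFin _).injective (Fin.val_injective
        ((Infinite.natEmbedding Nat.Primes).injective h))⟩
  obtain ⟨P, hP⟩ := hJ
  have hK0 : ∀ i : V, ∃ K₀ : Finset V, (∃ K ∈ H, i ∈ K) → K₀ ∈ H ∧ i ∈ K₀ := by
    intro i
    by_cases h : ∃ K ∈ H, i ∈ K
    · obtain ⟨K, h1, h2⟩ := h
      exact ⟨K, fun _ => ⟨h1, h2⟩⟩
    · exact ⟨∅, fun h' => absurd h' h⟩
  choose K₀ hK₀ using hK0
  set U : Finset V × V × A → Fˣ := fun j =>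
    Units.mk0 ((P j : ℕ) : F) (Nat.cast_ne_zero.2 (P j).2.ne_zero) with hU
  set Z : V → A → Fˣ := fun i α => ∏ K ∈ H.filter (fun K => i ∈ K), U (K, i, α) with hZ
  refine ⟨fun K i α => U (K, i, α) * (if K = K₀ i then (Z i α)⁻¹ else 1), fun D => ⟨?_, ?_⟩⟩
  · intro i α
    by_cases h : ∃ K ∈ H, i ∈ K
    · rw [prod_mul_distrib, prod_ite_eq', if_pos (mem_filter.2 (hK₀ i h))]
      exact mul_inv_cancel _
    · rw [filter_eq_empty_iff.2 fun K hK hi => h ⟨K, hK, hi⟩, prod_empty]
  · intro e _ he
    -- the relation, for every variable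
    have hrel : ∀ i α, ∏ K ∈ H.filter (fun K => i ∈ K),
        (U (K, i, α) * (if K = K₀ i then (Z i α)⁻¹ else 1)) ^ e K i α =
        ∏ K ∈ H.filter (fun K => i ∈ K), U (K, i, α) ^ (e K i α - e (K₀ i) i α) := by
      intro i α
      by_cases h : ∃ K ∈ H, i ∈ K
      · have h1 : ∀ K ∈ H.filter (fun K => i ∈ K),
            (U (K, i, α) * (if K = K₀ i then (Z i α)⁻¹ else 1)) ^ e K i α =
            U (K, i, α) ^ e K i α * (if K = K₀ i then (Z i α) ^ (-e (K₀ i) i α) else 1) := by
          intro K _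
          rw [mul_zpow]
          congr 1
          split_ifs with h2
          · rw [inv_zpow', h2]
          · rw [one_zpow]
        rw [prod_congr rfl h1, prod_mul_distrib, prod_ite_eq', if_pos (mem_filter.2 (hK₀ i h)), hZ]
        simp only
        rw [← prod_zpow, ← prod_mul_distrib]
        refine prod_congr rfl fun K _ => ?_
        rw [← zpow_add]
        rfl
      · rw [filter_eq_empty_iff.2 fun K hK hi => h ⟨K, hK, hi⟩, prod_empty, prod_empty]
    have hswap : ∀ G : Finset V → V → A → Fˣ, ∏ K ∈ H, ∏ i ∈ K, ∏ α, G K i α =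
        ∏ i, ∏ α, ∏ K ∈ H.filter (fun K => i ∈ K), G K i α := by
      intro G
      have h1 : ∏ K ∈ H, ∏ i ∈ K, ∏ α, G K i α =
          ∏ i, ∏ K ∈ H.filter (fun K => i ∈ K), ∏ α, G K i α := by
        refine prod_comm' fun K i => ?_
        simp only [mem_filter, mem_univ]
        tauto
      rw [h1]
      exact prod_congr rfl fun i _ => prod_comm
    rw [hswap, prod_congr rfl fun i _ => prod_congr rfl fun α _ => hrel i α] at he
    set f : Finset V × V × A → ℤ := fun j =>
      if j.1 ∈ H ∧ j.2.1 ∈ j.1 then e j.1 j.2.1 j.2.2 - e (K₀ j.2.1) j.2.1 j.2.2 else 0 with hf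
    have h2 : ∏ j, U j ^ f j = 1 := by
      rw [← he, Fintype.prod_prod_type_right]
      rw [Fintype.prod_prod_type]
      refine prod_congr rfl fun i _ => prod_congr rfl fun α _ => ?_
      have h3 : ∀ K : Finset V, U (K, i, α) ^ f (K, i, α) =
          if K ∈ H.filter (fun K => i ∈ K) then U (K, i, α) ^ (e K i α - e (K₀ i) i α) else 1 := by
        intro K
        rw [hf]
        simp only [mem_filter]
        split_ifs with h4
        · rfl
        · rw [zpow_zero]
      rw [prod_congr rfl fun K _ => h3 K, prod_ite_mem, univ_inter]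
    have h3 := Geni.indep P hP U (fun j => rfl) f h2
    have h4 : ∀ K ∈ H, ∀ i ∈ K, ∀ α, e K i α = e (K₀ i) i α := by
      intro K hK i hi α
      have h5 := h3 (K, i, α)
      rw [hf] at h5
      simp only at h5
      rw [if_pos ⟨hK, hi⟩] at h5
      linarith
    intro i α K hK hi K' hK' hi'
    rw [h4 K hK i hi α, h4 K' hK' i hi' α]

end Pool.Agent.Helper1x.EB
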