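import Pool.Agent.Helper1x.EB.Def

/-!
# Project EB, piece MOB
-/

set_option autoImplicit false

namespace Pool.Agent.Helper1x.EB

open Finset Pool.Agent.HS38.GT

theorem t_MOB : S_MOB := by
  intro F _ X Ω _ _ S hS f hf x
  set g : Finset X → F := fun T => ∑ u ∈ f.support, if u.support = T then f.coeff u else 0 with hg
  have hev : ∀ Y : Finset X, MvPolynomial.eval (fun β => if β ∈ Y then (1 : F) else 0) f =
      ∑ T ∈ Y.powerset, g T := by
    intro Y
    rw [MvPolynomial.eval_eq, hg, sum_comm]
    refine sum_congr rfl fun u _ => ?_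
    rw [sum_ite_eq]
    by_cases h : u.support ⊆ Y
    · rw [if_pos (mem_powerset.2 h), prod_eq_one, mul_one]
      intro i hi
      rw [if_pos (h hi), one_pow]
    · rw [if_neg (fun h' => h (mem_powerset.1 h'))]
      obtain ⟨i, hi, hiY⟩ := not_subset.1 h
      rw [prod_eq_zero hi, mul_zero]
      rw [if_neg hiY, zero_pow (Finsupp.mem_support_iff.1 hi)]
  have hzero : ∀ Y : Finset X, Y ⊂ S x → g Y = 0 := by
    intro Y
    induction Y using Finset.strongInduction with
    | H Y ih =>
      intro hY
      have h1 : MvPolynomial.eval (fun β => if β ∈ Y then (1 : F) else 0) f = 0 := by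
        by_contra h
        obtain ⟨x', hx'⟩ := (hf Y).1 h
        have h2 := hS x x' (hx'.trans hY.subset)
        exact hY.not_subset (h2 ▸ hx')
      rw [hev, sum_eq_single_of_mem Y (mem_powerset_self Y)] at h1
      · exact h1
      · intro T hT hTY
        have h3 : T ⊂ Y := lt_of_le_of_ne (mem_powerset.1 hT) hTY
        exact ih T h3 (h3.trans hY)
  have h1 : MvPolynomial.eval (fun β => if β ∈ S x then (1 : F) else 0) f ≠ 0 :=
    (hf (S x)).2 ⟨x, subset_rfl⟩
  rw [hev, sum_eq_single_of_mem (S x) (mem_powerset_self _)] at h1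
  · obtain ⟨u, hu, hu'⟩ := exists_ne_zero_of_sum_ne_zero h1
    refine ⟨u, hu, ?_⟩
    by_contra h
    exact hu' (if_neg h)
  · intro T hT hTY
    exact hzero T (lt_of_le_of_ne (mem_powerset.1 hT) hTY)

end Pool.Agent.Helper1x.EB
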