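import Pool.Agent.Helper1x.EB.Def

/-!
# Equal weights and relative weights, monomials with multiplicities
-/

set_option autoImplicit false
set_option linter.unusedSectionVars false

namespace Pool.Agent.Helper1x.EB

open Finset Pool.Agent.HS38.GT

namespace Wgt

variable {F V A : Type} [Field F] [Fintype V] [DecidableEq V] [Fintype A] [DecidableEq A]

/-- the exponents of a weight -/
def ind (H : Finset (Finset V)) (x : V → A) (P : Finset V → ℕ) (K : Finset V) (i : V) (α : A) : ℤ :=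
  if K ∈ H ∧ x i = α then (P K : ℤ) else 0

theorem wp_eq {H : Finset (Finset V)} (t : Finset V → V → A → Fˣ) (x : V → A) (P : Finset V → ℕ) :
    wp H t x P = ∏ K ∈ H, ∏ i ∈ K, ∏ α, t K i α ^ ind H x P K i α := by
  unfold wp
  refine prod_congr rfl fun K hK => ?_
  rw [← prod_pow]
  refine prod_congr rfl fun i _ => ?_
  rw [Fintype.prod_eq_single (x i)]
  · rw [ind, if_pos ⟨hK, rfl⟩, zpow_natCast]
  · intro α hα
    rw [ind, if_neg (fun h => hα h.2.symm), zpow_zero]

theorem ind_bd {H : Finset (Finset V)} {D : ℕ} (x : V → A) {P : Finset V → ℕ} (hP : ∀ K ∈ H, P K ≤ D) (K : Finset V)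
    (i : V) (α : A) : 0 ≤ ind H x P K i α ∧ ind H x P K i α ≤ D := by
  unfold ind
  split_ifs with h
  · exact ⟨Int.natCast_nonneg _, Int.ofNat_le.2 (hP K h.1)⟩
  · exact ⟨le_rfl, Int.natCast_nonneg _⟩

theorem ind_eq {H : Finset (Finset V)} {x : V → A} {P : Finset V → ℕ} {K : Finset V} (hK : K ∈ H) {i : V} {α : A}
    (h : x i = α) : ind H x P K i α = P K := if_pos ⟨hK, h⟩

theorem ind_ne {H : Finset (Finset V)} {x : V → A} {P : Finset V → ℕ} {K : Finset V} {i : V} {α : A}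
    (h : x i ≠ α) : ind H x P K i α = 0 := if_neg fun h' => h h'.2

end Wgt

open Wgt

theorem t_WEB : S_WEB := by
  intro F _ V A _ _ _ _ D H t ht x x' P P' hP hP' hw i hi K hK hiK K' hK' hiK'
  rw [wp_eq t x, wp_eq t x'] at hw
  have hgen := ht.2 (fun K i α => ind H x P K i α - ind H x' P' K i α) (by
    intro K i α
    have h1 := ind_bd x hP K i α
    have h2 := ind_bd x' hP' K i α
    rw [abs_le]
    constructor <;> linarith [h1.1, h1.2, h2.1, h2.2]) (by
    simp only [zpow_sub, prod_mul_distrib, prod_inv_distrib]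
    rw [hw, mul_inv_cancel])
  have h1 := hgen i (x i) K hK hiK K' hK' hiK'
  simp only [ind_eq hK rfl, ind_eq hK' rfl, ind_ne (Ne.symm hi), sub_zero, Nat.cast_inj] at h1
  exact h1

theorem t_WHB : S_WHB := by
  classical
  intro F _ V A _ _ _ _ D H t ht y x₁ P₁ R₁ hP₁ hR₁
  refine ⟨fun i => if ∃ K ∈ H, i ∈ K ∧ ∃ K' ∈ H, i ∈ K' ∧ P₁ K ≠ P₁ K' then x₁ i else y i, ?_⟩
  intro x P R hP hR hw i hi
  rw [wp_eq t x, wp_eq t y, wp_eq t x₁, wp_eq t y] at hw
  have hgen := ht.2 (fun K i α => (ind H x P K i α - ind H x₁ P₁ K i α) +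
      (ind H y R₁ K i α - ind H y R K i α)) (by
    intro K i α
    have h1 := ind_bd x hP K i α
    have h2 := ind_bd x₁ hP₁ K i α
    have h3 := ind_bd y hR₁ K i α
    have h4 := ind_bd y hR K i α
    rw [abs_le]
    constructor <;> linarith [h1.1, h1.2, h2.1, h2.2, h3.1, h3.2, h4.1, h4.2]) (by
    simp only [zpow_add, zpow_sub, prod_mul_distrib, prod_inv_distrib]
    have h1 : ∀ a b c d : Fˣ, a * b = c * d → a * c⁻¹ * (b * d⁻¹) = 1 := by
      intro a b c d h
      have : a * c⁻¹ * (b * d⁻¹) = (a * b) * (c * d)⁻¹ := by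
        rw [mul_inv, mul_mul_mul_comm]
      rw [this, h, mul_inv_cancel]
    exact h1 _ _ _ _ hw)
  obtain ⟨K, hK, hiK, K', hK', hiK', hne⟩ := hi
  show x i = if ∃ K ∈ H, i ∈ K ∧ ∃ K' ∈ H, i ∈ K' ∧ P₁ K ≠ P₁ K' then x₁ i else y i
  by_cases hxy : x i = y i
  · split_ifs with h3
    · by_contra h1
      obtain ⟨K₁, hK₁, hi₁, K₂, hK₂, hi₂, h4⟩ := h3
      have h6 := hgen i (x₁ i) K₁ hK₁ hi₁ K₂ hK₂ hi₂
      have h8 : y i ≠ x₁ i := fun h => h1 (hxy.trans h)
      simp only [ind_ne h1, ind_ne h8, ind_eq hK₁ rfl, ind_eq hK₂ rfl, sub_self, add_zero, zero_sub, neg_inj,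
        Nat.cast_inj] at h6
      exact h4 h6
    · exact hxy
  · have h1 := hgen i (x i) K hK hiK K' hK' hiK'
    have h8 : y i ≠ x i := fun h => hxy h.symm
    simp only [ind_eq hK rfl, ind_eq hK' rfl, ind_ne h8, sub_self, add_zero] at h1
    by_cases h3 : x₁ i = x i
    · simp only [ind_eq hK h3, ind_eq hK' h3] at h1
      rw [if_pos, h3]
      refine ⟨K, hK, hiK, K', hK', hiK', fun h => hne ?_⟩
      rw [h] at h1
      exact_mod_cast (sub_left_injective h1)
    · simp only [ind_ne h3, sub_zero, Nat.cast_inj] at h1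
      exact absurd h1 hne

end Pool.Agent.Helper1x.EB
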